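import Pool.Agent.R171.YG.Stm

set_option autoImplicit false

open Complex

namespace Pool.Agent.R171.YG

namespace B

instance instFinCell {n : ℕ} [NeZero n] : Finite (Cell n) := by
  have : Function.Injective (fun c : Cell n => match c with
    | .vertex i => (Sum.inl i : ZMod n ⊕ ZMod n)
    | .side i => Sum.inr i) := by
    intro a b h
    cases a <;> cases b <;> simp_all
  exact Finite.of_injective _ this

/-- two small naturals with the same class in `ZMod n` -/
theorem zmod_inj {n : ℕ} {a b : ℕ} (ha : a < n) (hb : b < n)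
    (h : ((a : ℤ) : ZMod n) = ((b : ℤ) : ZMod n)) : a = b := by
  rw [ZMod.intCast_eq_intCast_iff] at h
  have h2 := h.eq
  rw [Int.emod_eq_of_lt (by omega) (by omega), Int.emod_eq_of_lt (by omega) (by omega)] at h2
  omega

theorem zmod_lift {n : ℕ} {j : ℤ} {b : ℕ}
    (h : (j : ZMod n) = ((b : ℤ) : ZMod n)) : ∃ A : ℤ, j = b + A * n := by
  rw [ZMod.intCast_eq_intCast_iff] at h
  obtain ⟨c, hc⟩ := h.dvd
  exact ⟨-c, by linarith⟩

/-- the data of the construction -/
structure Dat (n m : ℕ) (P : Polygon n) (u : ℕ) where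
  hm : 1 ≤ m
  hu : m ≤ u
  hn : n = u + 2 * m + 1
  hs0 : 0 < P.s 1
  hgap : P.s ((u : ℤ) + 1) = P.s u + (m ^ 2 + 1)
  hA : ∀ k : ℕ, k ≤ m → P.s ((u : ℤ) + 1 + k) = P.s ((u : ℤ) + 1) + k
  hB : ∀ l : ℕ, l < m → P.s ((u : ℤ) + m + 1 + l) = P.s ((u : ℤ) + 1) + m + m * l
  hL : P.s ((u : ℤ) + 1) + m ^ 2 + (P.s ((u : ℤ) + 1) + m ^ 2 - P.s 1) ≤ P.L
  h0 : P.turn 0 = Real.pi - Real.pi / (n - 1)
  h1 : ∀ k : ℕ, 1 ≤ k → k ≤ m → P.turn k = Real.pi / (n - 1)
  hpos : ∀ k : ℤ, 0 ≤ P.turn k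

variable {n m u : ℕ} {P : Polygon n}

theorem Dat.last (D : Dat n m P u) : P.s ((n : ℤ) - 1) = P.s ((u : ℤ) + 1) + m ^ 2 := by
  have hm := D.hm
  have h := D.hB (m - 1) (by omega)
  have e : ((u : ℤ) + m + 1 + ((m - 1 : ℕ) : ℤ)) = (n : ℤ) - 1 := by
    have := D.hn; omega
  rw [e] at h
  rw [h]
  have : ((m - 1 : ℕ) : ℝ) = (m : ℝ) - 1 := by
    rw [Nat.cast_sub hm]; simp
  rw [this]; ring

/-- the junction point on the last side -/
noncomputable def yy (P : Polygon n) (m u : ℕ) (q : Fin m × Fin m × Fin m) : ℝ :=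
  P.s ((u : ℤ) + 1 + (q.2.1 : ℕ)) + P.s ((u : ℤ) + m + 1 + (q.2.2 : ℕ)) - P.s (((q.1 : ℕ) : ℤ) + 1)

theorem Dat.yy_eq (D : Dat n m P u) (q : Fin m × Fin m × Fin m) :
    yy P m u q = 2 * P.s ((u : ℤ) + 1) + (q.2.1 : ℕ) + m + m * (q.2.2 : ℕ) -
      P.s (((q.1 : ℕ) : ℤ) + 1) := by
  unfold yy
  rw [D.hA _ q.2.1.2.le, D.hB _ q.2.2.2]; ring

theorem Dat.x_le (D : Dat n m P u) (q : Fin m × Fin m × Fin m) :
    P.s (((q.1 : ℕ) : ℤ) + 1) ≤ P.s u := by
  apply P.s_strictMono.monotone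
  have := q.1.2; have := D.hu; omega

theorem Dat.x_ge (_D : Dat n m P u) (q : Fin m × Fin m × Fin m) :
    P.s 1 ≤ P.s (((q.1 : ℕ) : ℤ) + 1) := by
  apply P.s_strictMono.monotone
  omega

theorem fin_bounds {m : ℕ} (hm : 1 ≤ m) (k l : Fin m) :
    (0:ℝ) ≤ ((k : ℕ) : ℝ) ∧ ((k : ℕ) : ℝ) + 1 ≤ m ∧
    (0:ℝ) ≤ (m : ℝ) * ((l : ℕ) : ℝ) ∧ (m : ℝ) * ((l : ℕ) : ℝ) + m ≤ (m : ℝ) ^ 2 := by
  have hk : ((k : ℕ) : ℝ) + 1 ≤ m := by exact_mod_cast k.2
  have hl : ((l : ℕ) : ℝ) + 1 ≤ m := by exact_mod_cast l.2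
  have hm' : (0:ℝ) ≤ m := by positivity
  refine ⟨by positivity, hk, by positivity, ?_⟩
  nlinarith

theorem Dat.last_lt_yy (D : Dat n m P u) (q : Fin m × Fin m × Fin m) :
    P.s ((n : ℤ) - 1) < yy P m u q := by
  rw [D.yy_eq, D.last]
  have h1 := D.x_le q
  have h2 := D.hgap
  obtain ⟨h3, h4, h5, h6⟩ := fin_bounds D.hm q.2.1 q.2.2
  have hm : (1:ℝ) ≤ m := by exact_mod_cast D.hm
  linarith

theorem Dat.yy_lt (D : Dat n m P u) (q : Fin m × Fin m × Fin m) :
    yy P m u q < P.L := by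
  rw [D.yy_eq]
  have h1 := D.x_ge q
  have h2 := D.hL
  obtain ⟨h3, h4, h5, h6⟩ := fin_bounds D.hm q.2.1 q.2.2
  have hm : (1:ℝ) ≤ m := by exact_mod_cast D.hm
  have : (m : ℝ) ≤ (m:ℝ) ^ 2 := by nlinarith
  linarith

theorem Dat.x_lt_last (D : Dat n m P u) (q : Fin m × Fin m × Fin m) :
    P.s (((q.1 : ℕ) : ℤ) + 1) < P.s ((n : ℤ) - 1) := by
  apply P.s_strictMono
  have := q.1.2; have := D.hu; have := D.hn; omega

/-- the triple -/
noncomputable def tri (D : Dat n m P u) (q : Fin m × Fin m × Fin m) : Triple P where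
  t := ![0, P.s (((q.1 : ℕ) : ℤ) + 1), yy P m u q]
  nonneg := by simp
  lt01 := by
    simp only [Matrix.cons_val_zero, Matrix.cons_val_one]
    exact lt_of_lt_of_le D.hs0 (D.x_ge q)
  lt12 := by
    simp only [Matrix.cons_val_one, Matrix.cons_val]
    exact (D.x_lt_last q).trans (D.last_lt_yy q)
  lt2 := by
    simp only [Matrix.cons_val]
    exact D.yy_lt q

theorem tri_t0 (D : Dat n m P u) (q : Fin m × Fin m × Fin m) : (tri D q).t 0 = 0 := rfl
theorem tri_t1 (D : Dat n m P u) (q : Fin m × Fin m × Fin m) :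
    (tri D q).t 1 = P.s (((q.1 : ℕ) : ℤ) + 1) := rfl
theorem tri_t2 (D : Dat n m P u) (q : Fin m × Fin m × Fin m) :
    (tri D q).t 2 = yy P m u q := rfl

theorem Dat.ang_le (D : Dat n m P u) (t : ℝ) : P.ang t ≤ Real.pi := by
  by_cases h : ∃ k : ℤ, t = P.s k
  · obtain ⟨k, rfl⟩ := h
    rw [P.ang_s]; unfold Polygon.angle; linarith [D.hpos k]
  · rw [P.ang_of_not h]

theorem Dat.ang_yy (D : Dat n m P u) (q : Fin m × Fin m × Fin m) :
    P.ang (yy P m u q) = Real.pi := by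
  apply P.ang_of_not
  rintro ⟨k, hk⟩
  have h1 := D.last_lt_yy q
  have h2 := D.yy_lt q
  rw [hk] at h1 h2
  have h1' := P.s_strictMono.lt_iff_lt.mp h1
  have h2' : k < n := P.s_strictMono.lt_iff_lt.mp h2
  omega

theorem tri_alex (D : Dat n m P u) (q : Fin m × Fin m × Fin m) : (tri D q).Alexandrov := by
  refine ⟨?_, ?_⟩
  · rw [tri_t0, tri_t1, tri_t2, D.ang_yy]
    have e0 : P.ang 0 = Real.pi / (n - 1) := by
      have : P.ang (P.s 0) = P.angle 0 := P.ang_s 0
      rw [P.s_zero] at this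
      rw [this]; unfold Polygon.angle; rw [D.h0]; ring
    have e1 : P.ang (P.s (((q.1 : ℕ) : ℤ) + 1)) = Real.pi - Real.pi / (n - 1) := by
      rw [P.ang_s]; unfold Polygon.angle
      have := D.h1 ((q.1 : ℕ) + 1) (by omega) (by have := q.1.2; omega)
      push_cast at this
      rw [this]
    rw [e0, e1]; linarith
  · intro i x _ _ _
    linarith [D.ang_le x, D.ang_le ((tri D q).lo i + (tri D q).hi i - x)]

theorem lo0 (D : Dat n m P u) (q : Fin m × Fin m × Fin m) : (tri D q).lo 0 = 0 := rfl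
theorem lo1 (D : Dat n m P u) (q : Fin m × Fin m × Fin m) :
    (tri D q).lo 1 = P.s (((q.1 : ℕ) : ℤ) + 1) := rfl
theorem lo2 (D : Dat n m P u) (q : Fin m × Fin m × Fin m) :
    (tri D q).lo 2 = yy P m u q := rfl
theorem hi0 (D : Dat n m P u) (q : Fin m × Fin m × Fin m) :
    (tri D q).hi 0 = P.s (((q.1 : ℕ) : ℤ) + 1) := by
  simp [Triple.hi, tri_t1]
theorem hi1 (D : Dat n m P u) (q : Fin m × Fin m × Fin m) :
    (tri D q).hi 1 = yy P m u q := by
  simp [Triple.hi, tri_t2]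
theorem hi2 (D : Dat n m P u) (q : Fin m × Fin m × Fin m) :
    (tri D q).hi 2 = P.L := by
  simp [Triple.hi, tri_t0]

theorem typ_inj (D : Dat n m P u) : Function.Injective (fun q => (tri D q).typ) := by
  intro q q' h
  have hn := D.hn
  have hm := D.hm
  have hu := D.hu
  have hq1 := q.1.2
  have hq2 := q.2.1.2
  have hq3 := q.2.2.2
  have hq1' := q'.1.2
  have hq2' := q'.2.1.2
  have hq3' := q'.2.2.2
  -- first index
  have hi : q.1 = q'.1 := by
    have h1 := congrFun (congrArg Prod.fst h) 1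
    simp only [Triple.typ] at h1
    have hmem : Cell.vertex (((((q.1 : ℕ) + 1 : ℕ) : ℤ)) : ZMod n) ∈
        {c | P.InCell ((tri D q).t 1) c} := by
      refine ⟨(((q.1 : ℕ) + 1 : ℕ) : ℤ), rfl, ?_⟩
      rw [tri_t1]; push_cast; rfl
    rw [h1] at hmem
    obtain ⟨j, hj1, hj2⟩ := hmem
    rw [tri_t1] at hj2
    have hj3 := P.s_strictMono.injective hj2
    have hj4 : (((((q'.1 : ℕ) + 1 : ℕ) : ℤ)) : ZMod n) = (((((q.1 : ℕ) + 1 : ℕ) : ℤ)) : ZMod n) := by
      rw [← hj1, ← hj3]; push_cast; rfl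
    have := zmod_inj (by omega) (by omega) hj4
    apply Fin.ext; omega
  -- the other two
  have h3 := congrFun (congrArg (fun z => z.2.2) h) ((((u + 1 + (q.2.1 : ℕ) : ℕ) : ℤ)) : ZMod n)
  simp only [Triple.typ] at h3
  have hmem : Cell.vertex ((((u + m + 1 + (q.2.2 : ℕ) : ℕ) : ℤ)) : ZMod n) ∈
      {c | ∃ x y, P.InCell x (Cell.vertex ((((u + 1 + (q.2.1 : ℕ) : ℕ) : ℤ)) : ZMod n)) ∧
        (tri D q).Glued x y ∧ P.InCell y c} := by
    refine ⟨P.s ((u + 1 + (q.2.1 : ℕ) : ℕ) : ℤ), P.s ((u + m + 1 + (q.2.2 : ℕ) : ℕ) : ℤ),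
      ⟨_, rfl, rfl⟩, ?_, ⟨_, rfl, rfl⟩⟩
    right
    refine ⟨0, 0, 1, ?_, ?_, ?_⟩
    · rw [lo1]
      simp only [Int.cast_zero, zero_mul, add_zero]
      apply P.s_strictMono.monotone
      push_cast; omega
    · rw [hi1]
      simp only [Int.cast_zero, zero_mul, add_zero]
      refine le_trans ?_ (D.last_lt_yy q).le
      apply P.s_strictMono.monotone
      push_cast; omega
    · rw [lo1, hi1]
      unfold yy
      push_cast
      simp only [zero_mul, add_zero]
      ring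
  rw [h3] at hmem
  obtain ⟨x, y, ⟨j, hj, hx⟩, hg, ⟨j', hj', hy⟩⟩ := hmem
  obtain ⟨A, hA⟩ := zmod_lift hj
  obtain ⟨B, hB⟩ := zmod_lift hj'
  have hX : ∀ a : ℤ, x + a * P.L = P.s (((u + 1 + (q.2.1 : ℕ) : ℕ) : ℤ) + (A + a) * n) := by
    intro a
    rw [hx, hA, ← P.s_add_mul]; congr 1; ring
  have hY : ∀ b : ℤ, y + b * P.L = P.s (((u + m + 1 + (q.2.2 : ℕ) : ℕ) : ℤ) + (B + b) * n) := by
    intro b
    rw [hy, hB, ← P.s_add_mul]; congr 1; ring
  have hnpos : (0:ℤ) < n := by omega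
  -- localisation
  have loc : ∀ (C : ℤ) (w : ℕ), 0 < w → w < n → (0:ℤ) < w + C * n → (w : ℤ) + C * n < n → C = 0 := by
    intro C w h1 h2 h3 h4
    by_contra hne
    rcases lt_or_gt_of_ne hne with hlt | hgt
    · have : C * n ≤ -1 * n := by
        apply mul_le_mul_of_nonneg_right _ hnpos.le; omega
      omega
    · have : 1 * (n:ℤ) ≤ C * n := by
        apply mul_le_mul_of_nonneg_right _ hnpos.le; omega
      omega
  rcases hg with ⟨a, ha⟩ | ⟨a, b, i, hlo, hhi, hsum⟩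
  · exfalso
    have e1 := hX 0
    have e2 := hY a
    simp only [Int.cast_zero, zero_mul, add_zero] at e1
    rw [← ha, e1] at e2
    have e3 := P.s_strictMono.injective e2
    have e4 : (((u + 1 + (q.2.1 : ℕ) : ℕ) : ℤ) : ZMod n) =
        (((u + m + 1 + (q.2.2 : ℕ) : ℕ) : ℤ) : ZMod n) := by
      have := congrArg (fun z : ℤ => (z : ZMod n)) e3
      simpa using this
    have := zmod_inj (by omega) (by omega) e4
    omega
  · rw [hX] at hlo hhi
    have key : i = 1 := by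
      fin_cases i
      · exfalso
        simp only [Fin.zero_eta] at hlo hhi
        rw [lo0, ← P.s_zero] at hlo
        rw [hi0] at hhi
        have c1 := P.s_strictMono.le_iff_le.mp hlo
        have c2 := P.s_strictMono.le_iff_le.mp hhi
        rcases lt_trichotomy (A + a) 0 with hlt | heq | hgt
        · have : (A + a) * n ≤ -1 * n := by
            apply mul_le_mul_of_nonneg_right _ hnpos.le; omega
          omega
        · rw [heq] at c1 c2; omega
        · have : 1 * (n:ℤ) ≤ (A + a) * n := by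
            apply mul_le_mul_of_nonneg_right _ hnpos.le; omega
          omega
      · rfl
      · exfalso
        simp only [Fin.reduceFinMk] at hlo hhi
        rw [lo2] at hlo
        rw [hi2] at hhi
        have c1 := P.s_strictMono.lt_iff_lt.mp (lt_of_lt_of_le (D.last_lt_yy q') hlo)
        have c2 : ((u + 1 + (q.2.1 : ℕ) : ℕ) : ℤ) + (A + a) * n ≤ n :=
          P.s_strictMono.le_iff_le.mp hhi
        rcases lt_trichotomy (A + a) 0 with hlt | heq | hgt
        · have : (A + a) * n ≤ -1 * n := by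
            apply mul_le_mul_of_nonneg_right _ hnpos.le; omega
          omega
        · rw [heq] at c1 c2; omega
        · have : 1 * (n:ℤ) ≤ (A + a) * n := by
            apply mul_le_mul_of_nonneg_right _ hnpos.le; omega
          omega
    subst key
    rw [lo1] at hlo
    rw [hi1] at hhi
    have c1 : (0:ℤ) < ((u + 1 + (q.2.1 : ℕ) : ℕ) : ℤ) + (A + a) * n := by
      apply P.s_strictMono.lt_iff_lt.mp
      rw [P.s_zero]
      exact lt_of_lt_of_le (lt_of_lt_of_le D.hs0 (D.x_ge q')) hlo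
    have c2 : ((u + 1 + (q.2.1 : ℕ) : ℕ) : ℤ) + (A + a) * n < n :=
      P.s_strictMono.lt_iff_lt.mp (lt_of_le_of_lt hhi (D.yy_lt q'))
    have hA0 := loc _ _ (by omega) (by omega) c1 c2
    rw [hX, hA0, lo1, hi1, D.yy_eq] at hsum
    -- y + b L = b_l + (B + b) L
    have hYb : y + b * P.L = P.s (((u + m + 1 + (q.2.2 : ℕ) : ℕ) : ℤ)) + ((B + b : ℤ) : ℝ) * P.L := by
      rw [hY, P.s_add_mul]
    rw [hYb] at hsum
    have ea : P.s (((u + 1 + (q.2.1 : ℕ) : ℕ) : ℤ) + 0 * n) = P.s ((u : ℤ) + 1) + (q.2.1 : ℕ) := by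
      rw [← D.hA _ hq2.le]; congr 1; push_cast; ring
    have eb : P.s (((u + m + 1 + (q.2.2 : ℕ) : ℕ) : ℤ)) =
        P.s ((u : ℤ) + 1) + m + m * (q.2.2 : ℕ) := by
      rw [← D.hB _ hq3]; congr 1
    rw [ea, eb] at hsum
    obtain ⟨f1, f2, f3, f4⟩ := fin_bounds D.hm q.2.1 q.2.2
    obtain ⟨f1', f2', f3', f4'⟩ := fin_bounds D.hm q'.2.1 q'.2.2
    have hBL : ((B + b : ℤ) : ℝ) * P.L = (m : ℝ) * ((q'.2.2 : ℕ) : ℝ) + ((q'.2.1 : ℕ) : ℝ) -
        ((m : ℝ) * ((q.2.2 : ℕ) : ℝ) + ((q.2.1 : ℕ) : ℝ)) := by linarith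
    have hLbig : (m : ℝ) ^ 2 < P.L := by
      have := D.hL
      have h5 : P.s 1 ≤ P.s ((u : ℤ) + 1) := by
        apply P.s_strictMono.monotone; omega
      have h6 := D.hs0
      have h7 : (0:ℝ) ≤ (m:ℝ)^2 := by positivity
      linarith
    have hB0 : B + b = 0 := by
      by_contra hne
      have hL0 := P.L_pos
      rcases lt_or_gt_of_ne hne with hlt | hgt
      · have h8 : ((B + b : ℤ) : ℝ) ≤ -1 := by
          have : B + b ≤ -1 := by omega
          exact_mod_cast this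
        have h9 : ((B + b : ℤ) : ℝ) * P.L ≤ -1 * P.L := mul_le_mul_of_nonneg_right h8 hL0.le
        linarith
      · have h8 : (1:ℝ) ≤ ((B + b : ℤ) : ℝ) := by
          have : 1 ≤ B + b := by omega
          exact_mod_cast this
        have h9 : 1 * P.L ≤ ((B + b : ℤ) : ℝ) * P.L := mul_le_mul_of_nonneg_right h8 hL0.le
        linarith
    rw [hB0] at hBL
    simp only [Int.cast_zero, zero_mul] at hBL
    have hnat : m * (q'.2.2 : ℕ) + (q'.2.1 : ℕ) = m * (q.2.2 : ℕ) + (q.2.1 : ℕ) := by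
      have : (m : ℝ) * ((q'.2.2 : ℕ) : ℝ) + ((q'.2.1 : ℕ) : ℝ) =
        (m : ℝ) * ((q.2.2 : ℕ) : ℝ) + ((q.2.1 : ℕ) : ℝ) := by linarith
      exact_mod_cast this
    have hk : (q'.2.1 : ℕ) = (q.2.1 : ℕ) := by
      have := congrArg (· % m) hnat
      simp only [Nat.mul_add_mod] at this
      rwa [Nat.mod_eq_of_lt hq2', Nat.mod_eq_of_lt hq2] at this
    have hl : (q'.2.2 : ℕ) = (q.2.2 : ℕ) := by
      rw [hk] at hnat
      exact Nat.eq_of_mul_eq_mul_left hm (by omega)
    refine Prod.ext hi (Prod.ext (Fin.ext hk.symm) (Fin.ext hl.symm))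

theorem ncard_of_dat (D : Dat n m P u) : m ^ 3 ≤ P.types.ncard := by
  have : NeZero n := ⟨by have := D.hn; omega⟩
  have h1 : Set.range (fun q => (tri D q).typ) ⊆ P.types := by
    rintro _ ⟨q, rfl⟩
    exact ⟨tri D q, tri_alex D q, rfl⟩
  have h2 : (Set.range (fun q => (tri D q).typ)).ncard = m ^ 3 := by
    rw [← Set.image_univ, Set.ncard_image_of_injective _ (typ_inj D), Set.ncard_univ,
      Nat.card_eq_fintype_card]
    simp only [Fintype.card_prod, Fintype.card_fin]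
    ring
  rw [← h2]
  exact Set.ncard_le_ncard h1 (Set.toFinite _)

end B

open B in
theorem stmtB (hA : StmtA) : StmtB := by
  intro n m hm hnm
  obtain ⟨u, hu⟩ : ∃ u : ℕ, n = u + 2 * m + 1 := ⟨n - 1 - 2 * m, by omega⟩
  set ℓ : ℕ → ℝ := fun k => if k < u then 1 else if k = u then (m : ℝ) ^ 2 + 1 else
    if k ≤ u + m then 1 else m with hℓ
  have hmR : (1:ℝ) ≤ m := by exact_mod_cast hm
  have hpos : ∀ k, 0 < ℓ k := by
    intro k
    simp only [hℓ]
    split_ifs <;> positivity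
  obtain ⟨P, R₁, R₂, hR1, hR2, hs1, hstep, hL, ht0, ht1, ht2⟩ := hA n (by omega) ℓ hpos
  refine ⟨P, ncard_of_dat (u := u) ?_⟩
  have hgap : P.s ((u : ℤ) + 1) = P.s u + (m ^ 2 + 1) := by
    have := hstep u (by omega) (by omega)
    rw [this]; simp [hℓ]
  have hAA : ∀ k : ℕ, k ≤ m → P.s ((u : ℤ) + 1 + k) = P.s ((u : ℤ) + 1) + k := by
    intro k
    induction k with
    | zero => intro _; simp
    | succ k ih =>
      intro hk
      have h1 := hstep (u + 1 + k) (by omega) (by omega)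
      have h2 : ℓ (u + 1 + k) = 1 := by
        simp only [hℓ]
        rw [if_neg (by omega), if_neg (by omega), if_pos (by omega)]
      rw [h2] at h1
      push_cast at h1 ⊢
      rw [show (u:ℤ) + 1 + (k + 1) = u + 1 + k + 1 by ring, h1, ih (by omega)]; ring
  have hBB : ∀ l : ℕ, l < m → P.s ((u : ℤ) + m + 1 + l) = P.s ((u : ℤ) + 1) + m + m * l := by
    intro l
    induction l with
    | zero =>
      intro _
      have := hAA m le_rfl
      simp only [Nat.cast_zero, mul_zero, add_zero]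
      rw [← this]; congr 1; ring
    | succ l ih =>
      intro hl
      have h1 := hstep (u + m + 1 + l) (by omega) (by omega)
      have h2 : ℓ (u + m + 1 + l) = m := by
        simp only [hℓ]
        rw [if_neg (by omega), if_neg (by omega), if_neg (by omega)]
      rw [h2] at h1
      push_cast at h1 ⊢
      rw [show (u:ℤ) + m + 1 + (l + 1) = u + m + 1 + l + 1 by ring, h1, ih (by omega)]; ring
  -- telescoping
  have htel : ∀ N : ℕ, 1 ≤ N → N ≤ n - 1 → P.s (N : ℤ) - P.s 1 = ∑ k ∈ Finset.Ico 1 N, ℓ k := by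
    intro N hN
    induction N, hN using Nat.le_induction with
    | base => intro _; simp
    | succ N hN ih =>
      intro h
      rw [Finset.sum_Ico_succ_top hN, ← ih (by omega)]
      have := hstep N hN (by omega)
      push_cast
      rw [this]; ring
  have hlast : P.s ((n : ℤ) - 1) = P.s ((u : ℤ) + 1) + m ^ 2 := by
    have h := hBB (m - 1) (by omega)
    have e : ((u : ℤ) + m + 1 + ((m - 1 : ℕ) : ℤ)) = (n : ℤ) - 1 := by omega
    rw [e] at h
    rw [h]
    have : ((m - 1 : ℕ) : ℝ) = (m : ℝ) - 1 := by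
      rw [Nat.cast_sub hm]; simp
    rw [this]; ring
  have hturn : ∀ k : ℤ, 0 ≤ P.turn k := by
    have hn1 : (1:ℝ) ≤ (n:ℝ) - 1 := by
      have : (2:ℝ) ≤ n := by exact_mod_cast (show 2 ≤ n by omega)
      linarith
    have hdiv : 0 ≤ Real.pi / ((n:ℝ) - 1) := by
      apply div_nonneg Real.pi_pos.le; linarith
    have hdiv2 : Real.pi / ((n:ℝ) - 1) ≤ Real.pi := div_le_self Real.pi_pos.le hn1
    have hper : ∀ (a : ℤ) (k : ℤ), P.turn (k + a * n) = P.turn k := by
      intro a k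
      induction a using Int.induction_on with
      | zero => simp
      | succ a ih => rw [show k + ((a:ℤ) + 1) * n = (k + a * n) + n by ring, P.turn_add_n, ih]
      | pred a ih =>
        rw [← ih, ← P.turn_add_n (k + (-(a:ℤ) - 1) * n)]; congr 1; ring
    intro k
    have hdm : k = k % n + (k / n) * n := by
      have := Int.emod_add_mul_ediv k n
      linarith
    rw [hdm, hper]
    have hnz : (n:ℤ) ≠ 0 := by omega
    have hr0 := Int.emod_nonneg k hnz
    have hr1 := Int.emod_lt_of_pos k (show (0:ℤ) < n by omega)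
    obtain ⟨r, hr⟩ := Int.eq_ofNat_of_zero_le hr0
    rw [hr] at hr1 ⊢
    rcases Nat.eq_zero_or_pos r with h0 | hrpos
    · subst h0
      simp only [Int.natCast_zero] 
      rw [ht0]; linarith
    · by_cases hrn : r ≤ n - 2
      · rw [ht1 r hrpos hrn]; exact hdiv
      · have : (r:ℤ) = (n:ℤ) - 1 := by omega
        rw [this, ht2]; linarith
  exact
    { hm := hm
      hu := by omega
      hn := hu
      hs0 := by rw [hs1]; exact hR1
      hgap := hgap
      hA := hAA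
      hB := hBB
      hL := by
        have h1 := htel (n - 1) (by omega) le_rfl
        have e : ((n - 1 : ℕ) : ℤ) = (n : ℤ) - 1 := by omega
        rw [e] at h1
        rw [hL]
        linarith
      h0 := ht0
      h1 := fun k h1 h2 => ht1 k h1 (by omega)
      hpos := hturn }

end Pool.Agent.R171.YG
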